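import Pool.Agent.PLX.StmtsB

/-!
Squad PLX, row ENG: few distances give many perpendicular pairs in the plane.
-/

set_option autoImplicit false

namespace Pool.Agent.PLX.H2

open Pool.Agent.PLX

open Classical in
theorem card_sq_le {α β : Type} (s : Finset α) (f : α → β) :
    s.card ^ 2 ≤ (s.image f).card * ((s ×ˢ s).filter (fun p => f p.1 = f p.2)).card := by
  have h1 : s.card = ∑ b ∈ s.image f, (s.filter fun a => f a = b).card :=
    Finset.card_eq_sum_card_image f s
  have h2 : ((s ×ˢ s).filter (fun p => f p.1 = f p.2)).card =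
      ∑ b ∈ s.image f, (s.filter fun a => f a = b).card ^ 2 := by
    rw [Finset.card_eq_sum_card_fiberwise (f := fun p : α × α => f p.1) (t := s.image f)]
    · refine Finset.sum_congr rfl fun b _ => ?_
      rw [sq, ← Finset.card_product]
      congr 1
      ext p
      simp only [Finset.mem_filter, Finset.mem_product]
      constructor
      · rintro ⟨⟨⟨h3, h4⟩, h5⟩, h6⟩
        exact ⟨⟨h3, h6⟩, h4, by rw [← h5, h6]⟩
      · rintro ⟨⟨h3, h4⟩, h5, h6⟩
        exact ⟨⟨⟨h3, h5⟩, by rw [h4, h6]⟩, h4⟩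
    · intro p hp
      have h3 := (Finset.mem_filter.1 hp).1
      exact Finset.mem_image_of_mem f (Finset.mem_product.1 h3).1
  rw [h2]
  calc s.card ^ 2 = (∑ b ∈ s.image f, (s.filter fun a => f a = b).card) ^ 2 := by rw [← h1]
    _ ≤ _ := sq_sum_le_card_mul_sum_sq

theorem eng : EngStmt := by
  classical
  intro P S hS
  have h1 := card_sq_le (P ×ˢ P) (fun p : ℂ × ℂ => ‖p.1 - p.2‖)
  have h2 : (((P ×ˢ P) ×ˢ (P ×ˢ P)).filter
      (fun p : (ℂ × ℂ) × (ℂ × ℂ) => ‖p.1.1 - p.1.2‖ = ‖p.2.1 - p.2.2‖)).card ≤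
      ((P ×ˢ P) ×ˢ ((S ×ˢ S).filter
        (fun p : ℂ × ℂ => p.1.re * p.2.re + p.1.im * p.2.im = 0))).card := by
    refine Finset.card_le_card_of_injOn (fun q : (ℂ × ℂ) × (ℂ × ℂ) =>
      ((q.1.2, q.2.2), ((q.1.1 - q.1.2) + (q.2.2 - q.2.1), (q.1.1 - q.1.2) + (q.2.1 - q.2.2)))) ?_ ?_
    · rintro ⟨⟨a, b⟩, ⟨a', b'⟩⟩ hq
      have hq' := hq
      simp only [Finset.coe_filter, Finset.mem_product, Set.mem_setOf_eq] at hq'
      obtain ⟨⟨⟨ha, hb⟩, ha', hb'⟩, he⟩ := hq'
      simp only [Finset.coe_product, Finset.coe_filter, Finset.mem_product, Set.mem_prod,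
        Finset.mem_coe, Set.mem_setOf_eq]
      refine ⟨⟨hb, hb'⟩, ⟨hS a ha b hb b' hb' a' ha', hS a ha b hb a' ha' b' hb'⟩, ?_⟩
      have h5 : ‖a - b‖ ^ 2 = ‖a' - b'‖ ^ 2 := by rw [he]
      rw [Complex.sq_norm, Complex.sq_norm, Complex.normSq_apply, Complex.normSq_apply] at h5
      simp only [Complex.sub_re, Complex.sub_im, Complex.add_re, Complex.add_im] at h5 ⊢
      linear_combination h5
    · rintro ⟨⟨a, b⟩, ⟨a', b'⟩⟩ _ ⟨⟨c, d⟩, ⟨c', d'⟩⟩ _ he
      simp only [Prod.mk.injEq] at he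
      obtain ⟨⟨e1, e2⟩, e3, e4⟩ := he
      subst e1
      subst e2
      have e5 : a = c := by linear_combination (e3 + e4) / 2
      have e6 : a' = c' := by linear_combination (e4 - e3) / 2
      rw [e5, e6]
  rw [Finset.card_product, Finset.card_product] at h2
  have h3 : (P.card * P.card) ^ 2 ≤ nd P * (P.card * P.card * ((S ×ˢ S).filter
        (fun p : ℂ × ℂ => p.1.re * p.2.re + p.1.im * p.2.im = 0)).card) := by
    have h5 := h1
    rw [Finset.card_product] at h5
    refine h5.trans ?_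
    exact Nat.mul_le_mul le_rfl h2
  rcases Nat.eq_zero_or_pos P.card with h0 | h0
  · rw [h0]
    simp only [Nat.cast_zero, ne_eq, OfNat.ofNat_ne_zero, not_false_eq_true, zero_pow]
    positivity
  · have h6 : P.card ^ 2 ≤ nd P * ((S ×ˢ S).filter
        (fun p : ℂ × ℂ => p.1.re * p.2.re + p.1.im * p.2.im = 0)).card := by
      have h7 : 0 < P.card * P.card := Nat.mul_pos h0 h0
      refine Nat.le_of_mul_le_mul_left ?_ h7
      calc P.card * P.card * P.card ^ 2 = (P.card * P.card) ^ 2 := by ring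
        _ ≤ _ := h3
        _ = _ := by ring
    exact_mod_cast h6

end Pool.Agent.PLX.H2
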