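import Pool.Agent.PLX.StmtsB

/-!
Squad PLX, row THK: choice of the scales in the thick case of the structure theorem.
-/

set_option autoImplicit false

namespace Pool.Agent.PLX.H2

open Module Pool.Agent.PLX

/-- a nonincreasing sequence `a 0, .., a (d + 1)` in `{0, .., d}` has two equal consecutive
members -/
theorem exists_eq_succ (d : ℕ) (a : ℕ → ℕ) (h0 : a 0 ≤ d) (hm : ∀ i, a (i + 1) ≤ a i) :
    ∃ i, i ≤ d ∧ a i = a (i + 1) := by
  by_contra hc
  push Not at hc
  have h : ∀ i, i ≤ d + 1 → a i + i ≤ d := by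
    intro i
    induction i with
    | zero => intro _; simpa using h0
    | succ n ih =>
      intro hn
      have h1 := ih (by omega)
      have h2 := hc n (by omega)
      have h3 := hm n
      omega
  have h4 := h (d + 1) le_rfl
  omega

/-- a largest fibre -/
theorem exists_fiber {α β : Type} [DecidableEq β] (s : Finset α) (T : Finset β) (g : α → β)
    (hT : T.Nonempty) (hg : ∀ x ∈ s, g x ∈ T) :
    ∃ b ∈ T, s.card ≤ T.card * (s.filter fun x => g x = b).card := by
  obtain ⟨b, hb, hmax⟩ := T.exists_max_image (fun b => (s.filter fun x => g x = b).card) hT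
  refine ⟨b, hb, ?_⟩
  rw [Finset.card_eq_sum_card_fiberwise (f := g) (t := T) hg]
  calc ∑ c ∈ T, (s.filter fun x => g x = c).card
      ≤ ∑ _c ∈ T, (s.filter fun x => g x = b).card := Finset.sum_le_sum fun c hc => hmax c hc
    _ = T.card * (s.filter fun x => g x = b).card := by rw [Finset.sum_const, smul_eq_mul]

theorem thk (h1 : ThsStmt) : ThkStmt := by
  classical
  intro d
  choose F hF using h1 d
  choose Cc hCc using fun c => (hF c).2
  have hlt : ∀ c, c < F c := fun c => (hF c).1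
  obtain ⟨s, hs0, hs1⟩ : ∃ s : ℕ → ℕ, s 0 = 0 ∧ ∀ i, s (i + 1) = F (s i) :=
    ⟨fun i => F^[i] 0, rfl, fun i => Function.iterate_succ_apply' F i 0⟩
  have hsm : Monotone s := monotone_nat_of_le_succ fun i => by
    rw [hs1]
    exact (hlt _).le
  refine ⟨s (d + 1), (Finset.range (d + 1)).sup fun i => Cc (s i), ?_⟩
  intro A _ _ E _ _ Φ f G Θ L j hfd hD hrank hL hj hP htop hlines hcnt
  set C : ℕ := (Finset.range (d + 1)).sup fun i => Cc (s i) with hC
  have hL1 : (1 : ℝ) ≤ L := by linarith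
  have hL0 : (0 : ℝ) < L := by linarith
  have hmono : ∀ m n : ℕ, m ≤ n → 1 / L ^ n ≤ 1 / L ^ m := fun m n hmn =>
    one_div_le_one_div_of_le (pow_pos hL0 m) (pow_le_pow_right₀ hL1 hmn)
  -- for every line two scales with the same span
  have hex : ∀ t : ℝ, ∃ i, i ≤ d ∧ finrank ℚ (bs f (lp Φ G t) (1 / L ^ s i)) =
      finrank ℚ (bs f (lp Φ G t) (1 / L ^ s (i + 1))) := by
    intro t
    refine exists_eq_succ d (fun i => finrank ℚ (bs f (lp Φ G t) (1 / L ^ s i))) ?_ ?_
    · rw [← hrank]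
      exact Submodule.finrank_le _
    · intro i
      exact Submodule.finrank_mono (bs_mono (hD.lp t) (hmono _ _ (hsm (Nat.le_succ i))))
  choose ι hι1 hι2 using hex
  obtain ⟨⟨i, α⟩, hiα, hfib⟩ := exists_fiber Θ (Finset.range (d + 1) ×ˢ Finset.range (d + 1))
    (fun t => (ι t, finrank ℚ (bs f (lp Φ G t) (1 / L ^ s (ι t + 1)))))
    ⟨(0, 0), by simp⟩ (by
      intro t _
      rw [Finset.mem_product, Finset.mem_range, Finset.mem_range]
      refine ⟨Nat.lt_succ_of_le (hι1 t), Nat.lt_succ_of_le ?_⟩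
      rw [← hrank]
      exact Submodule.finrank_le _)
  rw [Finset.mem_product, Finset.mem_range, Finset.mem_range] at hiα
  have hi : i < d + 1 := hiα.1
  set Θ' : Finset ℝ := Θ.filter fun t =>
    (ι t, finrank ℚ (bs f (lp Φ G t) (1 / L ^ s (ι t + 1)))) = (i, α) with hΘ'
  have hCi : Cc (s i) ≤ C := Finset.le_sup (f := fun i => Cc (s i)) (Finset.mem_range.2 hi)
  have hpow : L ^ Cc (s i) ≤ L ^ C := pow_le_pow_right₀ hL1 hCi
  have hj0 : 0 ≤ j := (pow_nonneg hL0.le _).trans hj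
  have hcard : (Θ.card : ℝ) ≤ L ^ (2 * d) * Θ'.card := by
    have e1 : (Θ.card : ℝ) ≤ ((d : ℝ) + 1) * (d + 1) * Θ'.card := by
      have e2 : Θ.card ≤ (d + 1) * (d + 1) * Θ'.card := by
        refine hfib.trans (le_of_eq ?_)
        rw [Finset.card_product, Finset.card_range]
      exact_mod_cast e2
    have e3 : ((d : ℝ) + 1) ≤ L ^ d := by
      have e4 : d + 1 ≤ 2 ^ d := Nat.lt_two_pow_self
      calc ((d : ℝ) + 1) ≤ (2 : ℝ) ^ d := by exact_mod_cast e4
        _ ≤ L ^ d := pow_le_pow_left₀ (by norm_num) hL d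
    have e5 : ((d : ℝ) + 1) * (d + 1) ≤ L ^ (2 * d) := by
      rw [two_mul, pow_add]
      exact mul_le_mul e3 e3 (by positivity) (pow_nonneg hL0.le _)
    exact e1.trans (mul_le_mul_of_nonneg_right e5 (Nat.cast_nonneg _))
  have htop' : bs f G (1 / L ^ F (s i)) = ⊤ := by
    rw [← top_le_iff, ← htop, ← hs1]
    exact bs_mono hD (hmono _ _ (hsm (by omega)))
  obtain ⟨z, hz, hfin⟩ := hCc (s i) A E Φ f G Θ' L j α hfd hD hrank hL (hpow.trans hj)
    (hP.mono hpow) htop' (by
      intro t ht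
      rw [hΘ', Finset.mem_filter, Prod.mk.injEq] at ht
      obtain ⟨ht1, ht2, ht3⟩ := ht
      rw [ht2, hs1] at ht3
      refine ⟨hlines t ht1, ht3, ?_⟩
      have e1 := hι2 t
      rw [ht2, hs1] at e1
      have e2 : bs f (lp Φ G t) (1 / L ^ F (s i)) = bs f (lp Φ G t) (1 / L ^ s i) :=
        Submodule.eq_of_le_of_finrank_eq
          (bs_mono (hD.lp t) (hmono _ _ (hlt (s i)).le)) e1.symm
      exact e2.ge) (by
      refine hcnt.trans ?_
      rw [pow_add, pow_one]
      have e1 : L * (Θ.card : ℝ) ≤ L * (L ^ (2 * d) * Θ'.card) :=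
        mul_le_mul_of_nonneg_left hcard hL0.le
      calc L * (Θ.card : ℝ) * j ^ 2 ≤ L * (L ^ (2 * d) * Θ'.card) * j ^ 2 :=
            mul_le_mul_of_nonneg_right e1 (sq_nonneg _)
        _ = L * L ^ (2 * d) * Θ'.card * j ^ 2 := by ring)
  exact ⟨z, hz, hfin.trans (mul_le_mul_of_nonneg_right hpow (sq_nonneg _))⟩

end Pool.Agent.PLX.H2
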